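import Mathlib
import Pool.Agent.V11176.NCB.Final

/-!
# MP_f3bbeb_co: noncrossing partition lattices without blank sides are not rank-symmetric

If all the points of the finite planar set `P` lie on the boundary of `Conv(P)`, `P` is not
contained in a line, and no side of `Conv(P)` is blank, then `NC(P)` is not rank-symmetric.
-/

namespace Pool.Agent.Results.MP_f3bbeb_co.NoBlankSide

/-- Twice the signed area of the triangle `a b c`: it is `≥ 0` iff `c` lies weakly to the left of
the directed line from `a` to `b`, and `0` iff `a, b, c` are collinear. -/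
def area (a b c : ℝ × ℝ) : ℝ := (b.1 - a.1) * (c.2 - a.2) - (b.2 - a.2) * (c.1 - a.1)

/-- `[a, b]` is a side of the polygon `Conv(P)` (traversed with `Conv(P)` on its left): `a ≠ b` are
points of `P`, all of `P` lies weakly to the left of the line through `a` and `b`, and the points of
`P` on this line lie in the segment `[a, b]`. -/
def IsSide (P : Finset (ℝ × ℝ)) (a b : ℝ × ℝ) : Prop :=
  a ∈ P ∧ b ∈ P ∧ a ≠ b ∧ (∀ c ∈ P, 0 ≤ area a b c) ∧ ∀ c ∈ P, area a b c = 0 → c ∈ segment ℝ a b

/-- A side is blank if its endpoints are the only points of `P` on it. -/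
def IsBlankSide (P : Finset (ℝ × ℝ)) (a b : ℝ × ℝ) : Prop :=
  IsSide P a b ∧ ∀ c ∈ P, c ∈ segment ℝ a b → c = a ∨ c = b

/-- The convex hull of the block containing `x` of a partition (equivalence relation) of `P`. -/
def blockHull {P : Finset (ℝ × ℝ)} (r : Setoid P) (x : P) : Set (ℝ × ℝ) :=
  convexHull ℝ (Subtype.val '' {z : P | r x z})

/-- A partition is noncrossing if distinct blocks have disjoint convex hulls. -/
def IsNoncrossing {P : Finset (ℝ × ℝ)} (r : Setoid P) : Prop :=
  ∀ x y : P, ¬ r x y → Disjoint (blockHull r x) (blockHull r y)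

/-- The noncrossing partitions of `P`. -/
def NC (P : Finset (ℝ × ℝ)) : Type := {r : Setoid P // IsNoncrossing r}

/-- `NC(P)` is ordered by refinement, finer partitions being smaller (the order of `Setoid`). -/
instance (P : Finset (ℝ × ℝ)) : PartialOrder (NC P) :=
  inferInstanceAs (PartialOrder {r : Setoid P // IsNoncrossing r})

/-- A poset is graded of rank `N` if every maximal chain has `N + 1` elements. -/
def GradedOfRank (α : Type) [PartialOrder α] (N : ℕ) : Prop :=
  ∀ C : Set α, IsMaxChain (· ≤ ·) C → C.ncard = N + 1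

/-- A poset is rank-symmetric if it is graded, of rank `N` say, and has as many elements of rank
`i` as of rank `N - i`, for all `0 ≤ i ≤ N`; the rank of `x` is `Order.height x`, the maximal length
of a chain with top element `x`. -/
def RankSymmetric (α : Type) [PartialOrder α] : Prop :=
  ∃ N : ℕ, GradedOfRank α N ∧ ∀ i ≤ N,
    {x : α | Order.height x = (i : ℕ∞)}.ncard = {x : α | Order.height x = ((N - i : ℕ) : ℕ∞)}.ncard

/-- **Rank symmetry fails without blank sides.** Let `P` be a finite set of points of the plane, not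
contained in a line, all lying on the boundary of `Conv(P)`. If no side of `Conv(P)` is blank then
`NC(P)` is not rank-symmetric. -/
theorem result (P : Finset (ℝ × ℝ)) (hcol : ¬ Collinear ℝ (P : Set (ℝ × ℝ)))
    (hhull : (P : Set (ℝ × ℝ)) ⊆ frontier (convexHull ℝ (P : Set (ℝ × ℝ))))
    (hblank : ∀ a b : ℝ × ℝ, ¬ IsBlankSide P a b) : ¬ RankSymmetric (NC P) := by
  classical
  have hside : ∀ a ∈ P, ∀ b ∈ P, a ≠ b → (∀ c ∈ P, 0 ≤ V11176.NCB.det a b c) →
      ∃ c ∈ P, c ≠ a ∧ c ≠ b ∧ V11176.NCB.det a b c = 0 := by
    intro a ha b hb hab hc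
    by_contra hcon
    push Not at hcon
    apply hblank a b
    have hon : ∀ c ∈ P, V11176.NCB.det a b c = 0 → c = a ∨ c = b := by
      intro c hc h0
      by_contra hne
      push Not at hne
      exact hcon c hc hne.1 hne.2 h0
    refine ⟨⟨ha, hb, hab, hc, ?_⟩, ?_⟩
    · intro c hc h0
      rcases hon c hc h0 with rfl | rfl
      · exact left_mem_segment _ _ _
      · exact right_mem_segment _ _ _
    · intro c hc hseg
      apply hon c hc
      rw [V11176.NCB.mem_seg] at hseg
      obtain ⟨t, _, _, rfl⟩ := hseg
      unfold V11176.NCB.det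
      simp
      ring
  have hfin : Finite (Setoid P) := V11176.NCB.finite_setoid P
  obtain ⟨I, hI⟩ : ∃ I : Finset (Setoid P), ∀ s, s ∈ I ↔ V11176.NCB.IsNoncrossing s :=
    ⟨(Set.toFinite {s : Setoid P | V11176.NCB.IsNoncrossing s}).toFinset, fun s => by
      rw [Set.Finite.mem_toFinset]; rfl⟩
  have hP : 1 ≤ P.card := by
    obtain ⟨a, ha, _⟩ := V11176.NCB.exists_det_ne hcol
    exact Finset.card_pos.2 ⟨a, ha⟩
  exact V11176.NCB.not_symm P hP I hI (V11176.NCB.weighted_ne P hcol hhull hside I hI)

end Pool.Agent.Results.MP_f3bbeb_co.NoBlankSide
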